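import Pool.Agent.helper5.IH.Spec

/-! Row ih:ADX (MP_45d809). -/

set_option autoImplicit false

namespace Pool.Agent.IH

open Finset CT SYM

theorem ADX_mat {V : Type} [Fintype V] [DecidableEq V] (H : SimpleGraph V) (t : V → Fin 3) (x : V) :
    MM H (Function.update t x 0) =
      ((MM H t).updateRow x (Pi.single x 1)).updateCol x (Pi.single x 1) := by
  ext v w
  unfold MM
  simp only [Matrix.updateCol_apply, Matrix.updateRow_apply, Matrix.of_apply, Pi.single_apply]
  by_cases hw : w = x
  · subst hw
    by_cases hv : v = w
    · subst hv
      simp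
    · simp [hv]
  · by_cases hv : v = x
    · subst hv
      simp [hw, Ne.symm hw]
    · have e1 : Function.update t x 0 v = t v := Function.update_of_ne hv _ _
      have e2 : Function.update t x 0 w = t w := Function.update_of_ne hw _ _
      rw [e1, e2]
      simp [hv, hw]

theorem ADX_det {V : Type} [Fintype V] [DecidableEq V] (B : Matrix V V (ZMod 2)) (x : V)
    (hB : B.updateRow x (Pi.single x 1) = B) : (B.updateCol x (Pi.single x 1)).det = B.det := by
  have h1 : B.adjugate x x = B.det := by
    rw [Matrix.adjugate_apply, hB]
  have h2 : B.adjugate x x = (B.updateCol x (Pi.single x 1)).det := by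
    have h3 := congrFun (congrFun (Matrix.adjugate_transpose B) x) x
    rw [Matrix.transpose_apply, Matrix.adjugate_apply B.transpose, Matrix.updateRow_transpose,
      Matrix.det_transpose] at h3
    exact h3
  rw [← h2, h1]

theorem ADX (hDET : DET_stmt) : ADX_stmt := by
  intro V _ _ H t x _
  rw [← hDET, ADX_mat, Matrix.adjugate_apply, ADX_det]
  ext v w
  by_cases hv : v = x
  · subst hv
    simp
  · simp [Matrix.updateRow_apply, hv]

end Pool.Agent.IH
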